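import Pool.Agent.MP_db8016_pr.AD.Bal

/-! Two families with a martingale projection. -/

namespace Pool.Agent.MP_db8016_pr.BZ
open MeasureTheory ProbabilityTheory Filter Topology
open scoped ENNReal Classical

/-- Fewer independent cookies than dimensions. -/
theorem few_all (d : ℕ) (hd : 8 ≤ d)
    (μ : Measure ((Fin d → ℤ) → Fin d × Bool → ℕ → ℝ)) [IsProbabilityMeasure μ]
    (hind : iIndepFun (fun (z : Fin d → ℤ) (ω : (Fin d → ℤ) → Fin d × Bool → ℕ → ℝ) => ω z) μ)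
    (hid : ∀ z : Fin d → ℤ,
      IdentDistrib (fun ω : (Fin d → ℤ) → Fin d × Bool → ℕ → ℝ => ω z) (fun ω => ω 0) μ μ)
    (hsum : ∀ᵐ ω ∂μ, ∀ z i, ∑ e, ω z e i = 1)
    (κ : ℝ) (hκ : 0 < κ) (hell : ∀ᵐ ω ∂μ, ∀ z e i, κ ≤ ω z e i)
    (P₀ : Measure (ℕ → Fin d → ℤ)) [IsProbabilityMeasure P₀]
    (hP₀ : ∀ (e : ℕ → Fin d × Bool) (n : ℕ), P₀ {X | ∀ i ≤ n, X i = HD.pos e i} =
      ∫⁻ ω, ENNReal.ofReal (∏ i ∈ Finset.range n, ω (HD.pos e i) (e i) (HD.visits e i)) ∂μ)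
    (N : ℕ) (hN : N < d) (hBD : ∀ᵐ ω ∂μ, ∀ z e i, N ≤ i → ω z e i = 1 / (2 * (d : ℝ)))
    (hc : iIndepFun (fun (i : ℕ) (ω : (Fin d → ℤ) → Fin d × Bool → ℕ → ℝ) e => ω 0 e i) μ)
    (l : Fin d → ℝ) : P₀ (Tr l) = 0 ∨ P₀ (Tr l) = 1 := by
  let A : Matrix (Fin N) (Fin d) ℝ := fun i k => ∑ s, (∫ ω, ω 0 s i ∂μ) * (HD.step s k : ℝ)
  obtain ⟨m, h1, hm⟩ := (Submodule.ne_bot_iff _).1
    (LinearMap.ker_ne_bot_of_finrank_lt (f := A.mulVecLin) (by simpa using hN))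
  have hb : ∀ s i, Integrable (fun ω : (Fin d → ℤ) → Fin d × Bool → ℕ → ℝ => ω 0 s i) μ := by
    intro s i
    refine Integrable.of_bound (Measurable.aestronglyMeasurable (by fun_prop)) 1 ?_
    filter_upwards [hsum, hell] with ω a1 a2
    rw [Real.norm_of_nonneg (hκ.le.trans (a2 _ _ _)), ← a1 0 i]
    exact Finset.single_le_sum (f := fun e => ω 0 e i) (fun e _ => hκ.le.trans (a2 _ _ _))
      (Finset.mem_univ s)
  refine bal_all d hd μ hind hid hsum κ hκ hell P₀ hP₀ m hm (fun e i => le_of_eq (Eq.symm ?_)) l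
  by_cases hi : i < N
  · have h2 := (hc.comp (fun j (b : Fin d × Bool → ℝ) => if j = i then
        ∑ s, b s * ∑ k, (HD.step s k : ℝ) * m k else b (e j)) fun j => by
          split_ifs <;> fun_prop).indepFun_finsetProd_of_notMem (s := Finset.range i) (i := i)
      (fun j => by
        simp only [Function.comp_def]
        split_ifs <;> fun_prop) (by simp)
    have h3 : (∏ j ∈ Finset.range i, ((fun b : Fin d × Bool → ℝ => if j = i then
        ∑ s, b s * ∑ k, (HD.step s k : ℝ) * m k else b (e j)) ∘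
          fun (ω : (Fin d → ℤ) → Fin d × Bool → ℕ → ℝ) e => ω 0 e j)) =
        fun ω => ∏ j ∈ Finset.range i, ω 0 (e j) j := by
      funext ω
      rw [Finset.prod_apply]
      exact Finset.prod_congr rfl fun j hj => if_neg (Finset.mem_range.1 hj).ne
    rw [h3] at h2
    simp only [Function.comp_def, if_true] at h2
    rw [h2.integral_fun_mul_eq_mul_integral (Measurable.aestronglyMeasurable (by fun_prop))
      (Measurable.aestronglyMeasurable (by fun_prop)),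
      integral_finsetSum _ fun s _ => (hb s i).mul_const _]
    refine mul_eq_zero_of_right _ (Eq.trans ?_ (congrFun (LinearMap.mem_ker.1 h1) ⟨i, hi⟩))
    simp only [integral_mul_const]
    simp only [Matrix.mulVecLin_apply, Matrix.mulVec, dotProduct, A,
      Finset.sum_mul, Finset.mul_sum, mul_assoc]
    exact Finset.sum_comm
  · refine integral_eq_zero_of_ae ?_
    filter_upwards [hBD] with ω h
    simp only [h 0 _ i (not_lt.1 hi), ← Finset.mul_sum, Pi.zero_apply]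
    refine mul_eq_zero_of_right _ (mul_eq_zero_of_right _ ?_)
    rw [Fintype.sum_prod_type]
    refine Finset.sum_eq_zero fun j _ => ?_
    rw [Fintype.sum_bool, ← Finset.sum_add_distrib]
    refine Finset.sum_eq_zero fun k _ => ?_
    by_cases hk : k = j <;> simp [HD.step, Pi.single_apply, hk]

/-- All the cookies have a non-negative drift along `m`. -/
theorem pos_all (d : ℕ) (hd : 8 ≤ d)
    (μ : Measure ((Fin d → ℤ) → Fin d × Bool → ℕ → ℝ)) [IsProbabilityMeasure μ]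
    (hind : iIndepFun (fun (z : Fin d → ℤ) (ω : (Fin d → ℤ) → Fin d × Bool → ℕ → ℝ) => ω z) μ)
    (hid : ∀ z : Fin d → ℤ,
      IdentDistrib (fun ω : (Fin d → ℤ) → Fin d × Bool → ℕ → ℝ => ω z) (fun ω => ω 0) μ μ)
    (hsum : ∀ᵐ ω ∂μ, ∀ z i, ∑ e, ω z e i = 1)
    (κ : ℝ) (hκ : 0 < κ) (hell : ∀ᵐ ω ∂μ, ∀ z e i, κ ≤ ω z e i)
    (P₀ : Measure (ℕ → Fin d → ℤ)) [IsProbabilityMeasure P₀]
    (hP₀ : ∀ (e : ℕ → Fin d × Bool) (n : ℕ), P₀ {X | ∀ i ≤ n, X i = HD.pos e i} =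
      ∫⁻ ω, ENNReal.ofReal (∏ i ∈ Finset.range n, ω (HD.pos e i) (e i) (HD.visits e i)) ∂μ)
    (m : Fin d → ℝ) (hm : m ≠ 0)
    (hpos : ∀ᵐ ω ∂μ, ∀ z i, 0 ≤ ∑ s, ω z s i * ∑ k, (HD.step s k : ℝ) * m k)
    (l : Fin d → ℝ) : P₀ (Tr l) = 0 ∨ P₀ (Tr l) = 1 := by
  refine bal_all d hd μ hind hid hsum κ hκ hell P₀ hP₀ m hm (fun e i => integral_nonneg_of_ae ?_) l
  filter_upwards [hpos, hell] with ω a1 a2
  exact mul_nonneg (Finset.prod_nonneg fun j _ => hκ.le.trans (a2 _ _ _)) (a1 _ _)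

end Pool.Agent.MP_db8016_pr.BZ
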